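import Pool.Agent.Lib.helper26.Contr

namespace Pool.Agent.H.MP_7f80d9_lc
open Pool.Agent.Lib.CX Function SimpleGraph

abbrev claw := completeBipartiteGraph (Fin 1) (Fin 3)

theorem free_claw {V : Type} {G : SimpleGraph V} : ¬ claw.IsIndContained G ↔ ∀ c p q r, G.Adj c p → G.Adj c q → G.Adj c r →
    p ≠ q → p ≠ r → q ≠ r → G.Adj p q ∨ G.Adj p r ∨ G.Adj q r := by
  constructor
  · intro h c p q r h1 h2 h3 h4 h5 h6
    by_contra hn
    simp only [not_or] at hn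
    obtain ⟨h7, h8, h9⟩ := hn
    have := h1.ne; have := h2.ne; have := h3.ne
    have := h1.symm; have := h2.symm; have := h3.symm
    have := mt G.adj_symm h7; have := mt G.adj_symm h8; have := mt G.adj_symm h9
    refine h ⟨⟨⟨Sum.elim (fun _ => c) ![p, q, r], ?_⟩, ?_⟩⟩
    · rintro (a | a) (b | b) <;> fin_cases a <;> fin_cases b <;> simp <;> grind
    · rintro (a | a) (b | b) <;> fin_cases a <;> fin_cases b <;> simp [*]
  · refine fun h ⟨e⟩ => ?_
    have := h (e (.inl 0)) (e (.inr 0)) (e (.inr 1)) (e (.inr 2))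
    simp only [e.map_rel_iff, ne_eq, e.injective.eq_iff] at this
    simp at this

abbrev T := ℕ × ℕ × ℕ × ℕ × ℕ × ℕ

def In (m N : ℕ) (x : T) : Prop :=
  (x.1 < 5 ∧ x.2.1 < 2 ∧ x.2.2.1 < m ∧ x.2.2.2.1 < m ∧ x.2.2.2.2.1 < N ∧ x.2.2.2.2.2 < N) ∧
    (x.1 = 0 → x.2.2.2.2.1 = 0 ∧ x.2.2.2.2.2 = 0) ∧ (x.1 = 2 → x.2.2.2.1 = 0 ∧ x.2.2.2.2.2 = 0)

def rel (b : Bool) (x y : T) : Prop :=
  (x.1 = y.1 ∧ x.1 ≠ 0) ∨ (x.1 = 3 ∧ y.1 ≠ 1) ∨
    (x.1 = 0 ∧ y.1 = 1 ∧ x.2.1 = y.2.1 ∧ x.2.2.1 = y.2.2.1 ∧ x.2.2.2.1 = y.2.2.2.1) ∨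
    (x.1 = 1 ∧ y.1 = 2 ∧ b = true ∧ ¬(y.2.1 = x.2.1 ∧ y.2.2.1 = x.2.2.1 ∧ y.2.2.2.2.1 = x.2.2.2.2.1) ∧
      ¬(y.2.1 = x.2.1 ∧ y.2.2.1 = x.2.2.2.1 ∧ y.2.2.2.2.1 = x.2.2.2.2.2))

def HG (m N : ℕ) (val : ℕ × ℕ × ℕ × ℕ → Bool) : SimpleGraph {x // In m N x} :=
  fromRel fun x y => rel (val x.1.2.2) x.1 y.1

variable {m N : ℕ} {val : ℕ × ℕ × ℕ × ℕ → Bool}

theorem adj {x y} : (HG m N val).Adj x y ↔ x.1 ≠ y.1 ∧ (rel (val x.1.2.2) x.1 y.1 ∨ rel (val y.1.2.2) y.1 x.1) := by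
  simp [HG, Subtype.ext_iff]

theorem complete [Finite {x // In m N x}] (g : ℕ → ℕ) (h1 : ∀ i < m, g i < N)
    (h2 : ∀ i < m, ∀ j < m, val (i, j, g i, g j) = true) :
    Contr (fun _ G => ¬ claw.IsIndContained G) (2 * (m * m) + m) _ (HG m N val) := by
  classical
  let f0 : T → T := fun x => if x.1 = 0 then (1, x.2.1, x.2.2.1, x.2.2.2.1, g x.2.2.1, g x.2.2.2.1)
    else if x = (2, 1, x.2.2.1, 0, g x.2.2.1, 0) then (2, 0, x.2.2.1, 0, g x.2.2.1, 0) else x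
  refine Contr.complete (Her.free _) (fun x : {x // In m N x} => f0 x.1) (Conn.pair ?_) ?_ (free_claw.2 ?_)
  · rintro ⟨⟨k, t, i, j, u, v⟩, hx⟩ ⟨⟨k', t', i', j', u', v'⟩, hy⟩ e
    simp only [adj, rel, In, Subtype.mk.injEq, f0, ne_eq, Prod.mk.injEq] at e hx hy ⊢
    split_ifs at e <;> simp only [Prod.mk.injEq] at e <;> grind
  · let D : Finset T := ((Finset.range 2 ×ˢ Finset.range m ×ˢ Finset.range m).image
      fun p => (0, p.1, p.2.1, p.2.2, 0, 0)) ∪ (Finset.range m).image fun i => (2, 1, i, 0, g i, 0)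
    have hD : D.card ≤ 2 * (m * m) + m := (Finset.card_union_le ..).trans
      (add_le_add (Finset.card_image_le.trans (by simp)) (Finset.card_image_le.trans (by simp)))
    have : Set.range (Subtype.val : {x // In m N x} → T) ⊆ (Set.range fun x : {x // In m N x} => f0 x.1) ∪ D := by
      rintro _ ⟨⟨⟨k, t, i, j, u, v⟩, hx⟩, rfl⟩
      by_cases h3 : k = 0
      · right; simp only [In] at hx; simp [D]; grind
      by_cases h4 : (k, t, i, j, u, v) = (2, 1, i, 0, g i, 0)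
      · right; simp only [In] at hx; simp [D, h4, hx]
      · exact .inl ⟨⟨_, hx⟩, by simp only [f0, h3, h4, if_false]⟩
    have h5 := (Set.ncard_le_ncard this ((Set.finite_range _).union D.finite_toSet)).trans (Set.ncard_union_le ..)
    rw [Set.ncard_range_of_injective Subtype.val_injective, Set.ncard_coe_finset] at h5
    omega
  · let c : T → ℕ := fun x => if x.1 = 4 then 2 else if x.1 = 1 ∧ x.2.2.2.2 ≠ (g x.2.2.1, g x.2.2.2.1) then 0 else 1
    have a : ∀ x y : {x // In m N x}, f0 x.1 ≠ f0 y.1 → c x.1 = c y.1 →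
        ((HG m N val).map fun x => f0 x.1).Adj (f0 x.1) (f0 y.1) := by
      have s : ∀ x : {x // In m N x}, ∃ y : {x // In m N x}, f0 y.1 = f0 x.1 ∧ c y.1 = c x.1 ∧ y.1.1 ≠ 0 ∧
          ∃ z : {x // In m N x}, f0 z.1 = f0 x.1 ∧ (y.1.1 = 1 → c y.1 = 1 → z.1.1 = 0) ∧
            (y.1.1 = 2 → y.1.2.2.2.2.1 = g y.1.2.2.1 → z.1.1 = 2 ∧ z.1.2.1 ≠ y.1.2.1 ∧ z.1.2.2 = y.1.2.2) := by
        rintro ⟨⟨k, t, i, j, u, v⟩, hx⟩
        by_cases h3 : k = 0
        · refine ⟨⟨(1, t, i, j, g i, g j), ?_⟩, ?_, ?_, ?_, ⟨_, hx⟩, ?_⟩ <;> simp only [In, f0, c] at hx ⊢ <;> grind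
        by_cases h4 : k = 1
        · refine ⟨⟨_, hx⟩, rfl, rfl, h3, if h : (u, v) = (g i, g j) then ⟨(0, t, i, j, 0, 0), ?_⟩ else ⟨_, hx⟩, ?_⟩ <;>
            simp only [In, f0, c] at hx ⊢ <;> grind
        by_cases h5 : k = 2 ∧ u = g i
        · refine ⟨⟨_, hx⟩, rfl, rfl, h3, ⟨(2, 1 - t, i, j, u, v), ?_⟩, ?_⟩ <;> simp only [In, f0, c] at hx ⊢ <;> grind
        · refine ⟨⟨_, hx⟩, rfl, rfl, h3, ⟨_, hx⟩, ?_⟩; simp only [In, f0, c] at hx ⊢; grind
      intro x y ne e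
      obtain ⟨x1, p1, p2, p3, x2, p4, p5, p6⟩ := s x
      obtain ⟨y1, q1, q2, q3, y2, q4, q5, q6⟩ := s y
      have : (HG m N val).Adj x1 y1 ∨ (HG m N val).Adj x1 y2 ∨ (HG m N val).Adj x2 y1 := by
        rw [← p2, ← q2] at e
        have n1 : x1.1 ≠ y1.1 := fun e => ne (by rw [← p1, ← q1, e])
        have n2 : x1.1 ≠ y2.1 := fun e => ne (by rw [← p1, ← q4, e])
        have n3 : x2.1 ≠ y1.1 := fun e => ne (by rw [← p4, ← q1, e])
        clear p1 p2 p4 q1 q2 q4 ne s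
        obtain ⟨⟨k, t, i, j, u, v⟩, hx⟩ := x1
        obtain ⟨⟨k', t', i', j', u', v'⟩, hy⟩ := y1
        have v1 := h2 i hx.1.2.2.1 j hx.1.2.2.2.1
        have v2 := h2 i' hy.1.2.2.1 j' hy.1.2.2.2.1
        obtain ⟨⟨k2, t2, i2, j2, u2, v2⟩, hx2⟩ := x2
        obtain ⟨⟨k3, t3, i3, j3, u3, v3⟩, hy3⟩ := y2
        simp only [adj, n1, n2, n3, ne_eq, not_false_eq_true, true_and, rel]
        have k5 := hx.1.1
        have k6 := hy.1.1
        clear n1 n2 n3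
        simp only [c, ne_eq, Prod.mk.injEq] at e p3 p5 p6 q3 q5 q6 k5 k6 v1 v2
        interval_cases k <;> interval_cases k' <;> grind
      rcases this with h | h | h
      · exact ⟨ne, _, _, h, p1, q1⟩
      · exact ⟨ne, _, _, h, p1, q4⟩
      · exact ⟨ne, _, _, h, p4, q1⟩
    have b : ∀ x y x' y' : {x // In m N x}, (HG m N val).Adj x y → (HG m N val).Adj x' y' → f0 x.1 = f0 x'.1 →
        c y.1 = 0 → c y'.1 = 2 → False := by
      intro x y x' y' p q e c1 c2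
      have e1 := congrArg Prod.fst e
      have c3 : y.1.1 = 1 := by simp only [c] at c1; split_ifs at c1; omega
      have c4 : y'.1.1 = 4 := by simp only [c] at c2; split_ifs at c2 <;> omega
      have c5 : x.1.1 ≤ 2 := by simp only [adj, rel] at p; omega
      have c6 : 3 ≤ x'.1.1 := by simp only [adj, rel] at q; omega
      have c7 : f0 x'.1 = x'.1 := by
        simp only [f0]; rw [if_neg (by omega), if_neg fun h => by rw [h] at c6; simp at c6]
      rw [c7] at e1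
      simp only [f0] at e1
      split_ifs at e1 <;> omega
    rintro _ _ _ _ ⟨-, x1, p, h3, rfl, rfl⟩ ⟨-, x2, q, h4, e2, rfl⟩ ⟨-, x3, r, h5, e3, rfl⟩ n1 n2 n3
    by_contra hn
    simp only [not_or] at hn
    have c1 := mt (a p q n1) hn.1
    have c2 := mt (a p r n2) hn.2.1
    have c3 := mt (a q r n3) hn.2.2
    have c4 : ∀ x, c x ≤ 2 := fun x => by simp only [c]; split_ifs <;> omega
    have := b _ _ _ _ h3 h4 e2.symm; have := b _ _ _ _ h4 h3 e2
    have := b _ _ _ _ h3 h5 e3.symm; have := b _ _ _ _ h5 h3 e3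
    have := b _ _ _ _ h4 h5 (e2.trans e3.symm); have := b _ _ _ _ h5 h4 (e3.trans e2.symm)
    have := c4 p.1; have := c4 q.1; have := c4 r.1
    grind

theorem sound [Finite {x // In m N x}] (hm : 2 ≤ m) (hN : 4 * (2 * (m * m) + m) < N)
    (h : Contr (fun _ G => ¬ claw.IsIndContained G) (2 * (m * m) + m) _ (HG m N val)) :
    ∃ g : ℕ → ℕ, ∀ i < m, ∀ j < m, val (i, j, g i, g j) = true := by
  classical
  have := Fintype.ofFinite {x // In m N x}
  obtain ⟨W, f, h1, h2, h3, h4⟩ := h.sound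
  rw [free_claw] at h4
  have m0 : 0 < m := by omega
  have N0 : 0 < N := by omega
  obtain ⟨r, hb, hc⟩ := exists_un h1 h3 hN (φ := fun r => ⟨(4, 0, 0, 0, r, 0), by simp [In, m0, N0]⟩)
    (ψ := fun r => ⟨(3, 0, 0, 0, r, 0), by simp [In, m0, N0]⟩) (fun _ _ e => Fin.ext (by simpa using e))
    fun _ _ e => Fin.ext (by simpa using e)
  generalize eb : (⟨(4, 0, 0, 0, r, 0), _⟩ : {x // In m N x}) = b at hb
  generalize ec : (⟨(3, 0, 0, 0, r, 0), _⟩ : {x // In m N x}) = c at hc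
  have kb : b.1.1 = 4 := by rw [← eb]
  have kc : c.1.1 = 3 := by rw [← ec]
  clear eb ec
  have ab : ∀ y, (HG m N val).Adj y b → y.1.1 = 3 ∨ y.1.1 = 4 := fun y h => by
    simp only [adj, rel] at h; omega
  have ac : ∀ y, y.1.1 ≠ 1 → y.1.1 ≠ 3 → (HG m N val).Adj c y := fun y h h' =>
    adj.2 ⟨fun e => h' (e ▸ kc), .inl (.inr (.inl ⟨kc, h⟩))⟩
  have pr : ∀ x : {x // In m N x}, ∃ s a : {x // In m N x}, Un f s ∧ Un f a ∧ s.1.1 = 1 ∧ a.1.1 = 2 ∧
      ¬ (HG m N val).Adj s a ∧ (x.1.1 = 0 → (HG m N val).Adj x s) := by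
    rintro ⟨⟨k, t, i, j, u, v⟩, hx⟩
    obtain ⟨r, h5, h6⟩ := exists_un h1 h3 hN (φ := fun r => ⟨(1, t, i, j, r, r), by simp [In, hx.1]⟩)
      (ψ := fun r => ⟨(2, t, i, 0, r, 0), by simp [In, hx.1, m0, N0]⟩) (fun _ _ e => Fin.ext (by simpa using e))
      fun _ _ e => Fin.ext (by simpa using e)
    refine ⟨_, _, h5, h6, rfl, rfl, by simp [adj, rel], ?_⟩
    rintro (rfl : k = 0); simp [adj, rel]
  have nC : ∀ x y : {x // In m N x}, x.1.1 = 0 → f y = f x → y.1.1 ≠ 3 := fun x y hx e hy => by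
    obtain ⟨s, a, s1, a1, s2, a2, h5, h6⟩ := pr x
    have := h4 (f x) (f s) (f a) (f b) (s1.adj'.2 ⟨x, rfl, h6 hx⟩)
      (a1.adj'.2 ⟨y, e, adj.2 ⟨fun e => by rw [e] at hy; omega, .inl (.inr (.inl ⟨hy, by omega⟩))⟩⟩)
      (hb.adj'.2 ⟨y, e, adj.2 ⟨fun e => by rw [e] at hy; omega, .inl (.inr (.inl ⟨hy, by omega⟩))⟩⟩)
      (a1.ne fun e => by rw [e] at s2; omega) (hb.ne fun e => by rw [e] at s2; omega)
      (hb.ne fun e => by rw [e] at a2; omega)
    rw [s1.adj a1, s1.adj hb, a1.adj hb] at this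
    rcases this with h | h | h
    · exact h5 h
    · have := ab _ h; omega
    · have := ab _ h; omega
  have cl : ∀ x a : {x // In m N x}, x.1.1 = 0 → a.1.1 = 2 → Un f a → (∀ y, f y = f x → y.1.1 ≤ 1) →
      ∃ y, f y = f x ∧ (HG m N val).Adj y a := fun x a hx ha ua hy => by
    have := h4 (f c) (f x) (f a) (f b) (hc.adj'.2 ⟨x, rfl, (ac x (by omega) (by omega)).symm⟩).symm
      ((hc.adj ua).2 (ac a (by omega) (by omega))) ((hc.adj hb).2 (ac b (by omega) (by omega)))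
      (ua.ne fun e => by rw [e] at hx; omega) (hb.ne fun e => by rw [e] at hx; omega)
      (hb.ne fun e => by rw [e] at ha; omega)
    rw [ua.adj', hb.adj', ua.adj hb] at this
    rcases this with h | ⟨y, e, h⟩ | h
    · exact h
    · have := ab _ h; have := hy y e; omega
    · have := ab _ h; omega
  have xa : ∀ x y : {x // In m N x}, x.1.1 = 0 → (HG m N val).Adj x y → y.1.1 ≠ 3 →
      y.1.1 = 1 ∧ x.1.2.1 = y.1.2.1 ∧ x.1.2.2.1 = y.1.2.2.1 ∧ x.1.2.2.2.1 = y.1.2.2.2.1 := fun x y hx h hy => by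
    simp only [adj, rel] at h; omega
  have ex : ∀ x : {x // In m N x}, x.1.1 = 0 → ∃ y, f x = f y ∧ y.1.1 = 1 ∧ x.1.2.1 = y.1.2.1 ∧
      x.1.2.2.1 = y.1.2.2.1 ∧ x.1.2.2.2.1 = y.1.2.2.2.1 := fun x hx => by
    have : ¬ Un f x := fun ux => by
      obtain ⟨s, a, -, a1, -, a2, -⟩ := pr x
      obtain ⟨y, e, h⟩ := cl x a hx a2 a1 fun y e => by rw [ux y e]; omega
      rw [ux y e] at h
      have := xa _ _ hx h (by omega); omega
    simp only [Un, not_forall] at this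
    obtain ⟨y, e, ne⟩ := this
    obtain ⟨z, h5, h6⟩ := h2.edge e.symm (Ne.symm ne)
    exact ⟨z, h6, xa _ _ hx h5 (nC _ _ hx h6.symm)⟩
  let fb : W → Finset {x // In m N x} := fun c => Finset.univ.filter fun x => f x = c
  let Y : {x // In m N x} → Prop := fun x => (x.1.1 = 0 ∧ 3 ≤ (fb (f x)).card) ∨ (x.1.1 = 2 ∧ ¬ Un f x)
  have cheap : ∀ x : {x // In m N x}, x.1.1 = 0 → ¬ Y x → ∃ u v, val (x.1.2.2.1, x.1.2.2.2.1, u, v) = true ∧
      (∃ a, Y a ∧ a.1 = (2, x.1.2.1, x.1.2.2.1, 0, u, 0)) ∧ ∃ a, Y a ∧ a.1 = (2, x.1.2.1, x.1.2.2.2.1, 0, v, 0) := by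
    intro x hx hY
    obtain ⟨y, e, y1, y2, y3, y4⟩ := ex x hx
    have h5 : ∀ z, f z = f x → z = x ∨ z = y := fun z hz => by
      by_contra hn
      simp only [not_or] at hn
      refine hY (.inl ⟨hx, Finset.two_lt_card_iff.2 ⟨z, x, y, by simpa [fb] using hz, by simp [fb],
        by simpa [fb] using e.symm, hn.1, hn.2, fun e => by rw [e] at hx; omega⟩⟩)
    have h6 : ∀ a : {x // In m N x}, a.1.1 = 2 → Un f a → (HG m N val).Adj y a := fun a a2 a1 => by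
      obtain ⟨z, e, h⟩ := cl x a hx a2 a1 fun z e => by rcases h5 z e with rfl | rfl <;> omega
      rcases h5 z e with rfl | rfl
      · have := xa _ _ hx h (by omega); omega
      · exact h
    rw [y2, y3, y4]
    obtain ⟨s, a, -, a1, -, a2, -⟩ := pr x
    have h7 := h6 a a2 a1
    clear y2 y3 y4 h5 e
    obtain ⟨⟨k, t, i, j, u, v⟩, hy⟩ := y
    obtain rfl : k = 1 := y1
    refine ⟨u, v, by simp only [adj, rel] at h7; grind, ⟨⟨(2, t, i, 0, u, 0), by simp [In, hy.1, m0, N0]⟩,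
      .inr ⟨rfl, fun h => ?_⟩, rfl⟩, ⟨(2, t, j, 0, v, 0), by simp [In, hy.1, m0, N0]⟩, .inr ⟨rfl, fun h => ?_⟩, rfl⟩ <;>
      simpa [adj, rel] using h6 _ rfl h
  have cnt := wsum h1 h3 (fun x => (if x.1.1 = 0 then 1 else 0) * 2 + if Y x then 1 else 0) fun w => by
    obtain ⟨x0, rfl⟩ := h1 w
    rw [Finset.sum_add_distrib, ← Finset.sum_mul, ← Finset.card_filter, ← Finset.card_filter]
    change ((fb (f x0)).filter _).card * 2 + ((fb (f x0)).filter _).card + 2 ≤ 2 * (fb (f x0)).card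
    have e1 : ((fb (f x0)).filter fun x => x.1.1 = 0).card ≤ ((fb (f x0)).filter fun x => x.1.1 = 1).card := by
      refine Finset.card_le_card_of_forall_subsingleton (fun x y => x.1.2.1 = y.1.2.1 ∧
        x.1.2.2.1 = y.1.2.2.1 ∧ x.1.2.2.2.1 = y.1.2.2.2.1) (fun x hx => ?_) fun y hy => ?_
      · simp only [fb, Finset.mem_filter, Finset.mem_univ, true_and] at hx ⊢
        obtain ⟨y, e, y1, y2⟩ := ex x hx.2
        exact ⟨y, ⟨e ▸ hx.1, y1⟩, y2⟩
      · rintro ⟨⟨k, t, i, j, u, v⟩, hx⟩ ⟨p, p2⟩ ⟨⟨k', t', i', j', u', v'⟩, hz⟩ ⟨q, q2⟩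
        have p1 := (Finset.mem_filter.1 p).2
        have q1 := (Finset.mem_filter.1 q).2
        have p3 := hx.2.1 p1
        have q3 := hz.2.1 q1
        simp only [Subtype.mk.injEq, Prod.mk.injEq] at p1 q1 p2 q2 p3 q3 ⊢
        omega
    have e2 : ((fb (f x0)).filter fun x => x.1.1 = 0).card + ((fb (f x0)).filter fun x => x.1.1 = 1).card +
        ((fb (f x0)).filter fun x => x.1.1 = 2).card ≤ (fb (f x0)).card := by
      simp only [Finset.card_filter, ← Finset.sum_add_distrib]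
      exact (Finset.sum_le_card_nsmul _ _ 1 fun x _ => by split_ifs <;> omega).trans (by simp)
    have e3 : ((fb (f x0)).filter fun x => Y x).card ≤ (if 3 ≤ (fb (f x0)).card then ((fb (f x0)).filter fun x => x.1.1 = 0).card
        else 0) + if 2 ≤ (fb (f x0)).card then ((fb (f x0)).filter fun x => x.1.1 = 2).card else 0 := by
      refine (Finset.card_le_card (t := (if 3 ≤ (fb (f x0)).card then ((fb (f x0)).filter fun x => x.1.1 = 0) else ∅) ∪
        if 2 ≤ (fb (f x0)).card then ((fb (f x0)).filter fun x => x.1.1 = 2) else ∅) fun x hx => ?_).trans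
        ((Finset.card_union_le ..).trans (by split_ifs <;> simp))
      obtain ⟨p, q⟩ := Finset.mem_filter.1 hx
      have e : f x = f x0 := by simpa [fb] using p
      rcases q with ⟨q1, q2⟩ | ⟨q1, q2⟩
      · rw [e] at q2; simp [q1, q2, p]
      · have := fib_two q2
        rw [e] at this
        simp [q1, p, show 2 ≤ (fb (f x0)).card from this]
    have e4 : 1 ≤ (fb (f x0)).card := Finset.card_pos.2 ⟨x0, by simp [fb]⟩
    split_ifs at e3 <;> omega
  rw [Finset.sum_add_distrib, ← Finset.sum_mul, ← Finset.card_filter, ← Finset.card_filter] at cnt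
  have c0 : 2 * (m * m) ≤ (Finset.univ.filter fun x : {x // In m N x} => x.1.1 = 0).card := by
    refine le_trans (by simp) (Finset.card_le_card_of_surjOn (t := Finset.range 2 ×ˢ Finset.range m ×ˢ Finset.range m)
      (fun x => (x.1.2.1, x.1.2.2.1, x.1.2.2.2.1)) ?_)
    rintro ⟨t, i, j⟩ h
    simp only [Finset.coe_product, Finset.coe_range, Set.mem_prod, Set.mem_Iio] at h
    exact ⟨⟨(0, t, i, j, 0, 0), by simp [In, h, N0]⟩, by simp, rfl⟩
  have one : ∀ t < 2, ∀ i < m, ∃ y, Y y ∧ (y.1.2.1, y.1.2.2.1) = (t, i) := fun t ht i hi => by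
    by_cases h : Y ⟨(0, t, i, 0, 0, 0), by simp [In, ht, hi, m0, N0]⟩
    · exact ⟨_, h, rfl⟩
    · obtain ⟨u, v, -, ⟨a, h5, h6⟩, -⟩ := cheap _ rfl h
      exact ⟨a, h5, by rw [h6]⟩
  have uq : ∀ y z, Y y → Y z → (y.1.2.1, y.1.2.2.1) = (z.1.2.1, z.1.2.2.1) → y = z := fun y z hy hz e => by
    refine Finset.injOn_of_surjOn_of_card_le (s := Finset.univ.filter fun x => Y x) (t := Finset.range 2 ×ˢ Finset.range m)
      (fun y => (y.1.2.1, y.1.2.2.1)) (fun y _ => by simp [y.2.1]) ?_ (by simp; omega) (by simpa) (by simpa) e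
    rintro ⟨t, i⟩ h
    simp only [Finset.coe_product, Finset.coe_range, Set.mem_prod, Set.mem_Iio] at h
    obtain ⟨y, h5, h6⟩ := one t h.1 i h.2
    exact ⟨y, by simpa using h5, h6⟩
  have nY : ∀ x : {x // In m N x}, x.1.1 = 0 → ¬ Y x := by
    rintro ⟨⟨k, t, i, j, u, v⟩, hx⟩ (rfl : k = 0) hY
    have h5 : In m N (0, t, i, if j = 0 then 1 else 0, 0, 0) := by
      have := hx.1
      simp only [In] at this ⊢; split_ifs <;> simp [this, N0, m0, show 1 < m by omega]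
    by_cases h : Y ⟨_, h5⟩
    · have := uq _ _ hY h rfl
      have := congrArg (fun z => z.1.2.2.2.1) this
      simp only at this
      split_ifs at this <;> omega
    · obtain ⟨u, v, -, ⟨a, h6, h7⟩, -⟩ := cheap _ rfl h
      have := uq _ _ hY h6 (by rw [h7])
      rw [← this] at h7; simp at h7
  have : Nonempty {x // In m N x} := ⟨b⟩
  choose! g g1 g2 using one 0 (by omega)
  refine ⟨fun i => (g i).1.2.2.2.2.1, fun i hi j hj => ?_⟩
  obtain ⟨u, v, h5, ⟨a, h6, h7⟩, a', h8, h9⟩ := cheap ⟨(0, 0, i, j, 0, 0), by simp [In, hi, hj, N0]⟩ rfl (nY _ rfl)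
  beta_reduce
  rw [uq _ _ (g1 i hi) h6 (by rw [g2 i hi, h7]), uq _ _ (g1 j hj) h8 (by rw [g2 j hj, h9]), h7, h9]
  exact h5

end Pool.Agent.H.MP_7f80d9_lc
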